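import Pool.Agent.U115.WN.Stm

/-!
# Project WN (helper115), package LFM: many integral matrices with independent columns
-/

set_option autoImplicit false

open scoped Classical
open Matrix

namespace Pool.Agent.U427.WN

open Pool.Agent.U115.WM Pool.Agent.U115.WN

/-- the matrices -/
def mat (n k q : ℕ) (u : Fin n → Fin k → Fin (q + 1)) : Matrix (Fin n) (Fin k) ℤ :=
  fun l i => if l.val = i.val then (k * q + 1 + (u l i).val : ℤ) else ((u l i).val : ℤ)

lemma mat_inj (n k q : ℕ) : Function.Injective (mat n k q) := by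
  intro u u' h
  funext l i
  have h1 : mat n k q u l i = mat n k q u' l i := by rw [h]
  unfold mat at h1
  apply Fin.ext
  split_ifs at h1 <;> omega

lemma mat_le (n k q : ℕ) (u : Fin n → Fin k → Fin (q + 1)) (l : Fin n) (i : Fin k) :
    |mat n k q u l i| ≤ (k + 1) * q + 1 := by
  have h1 : (u l i).val < q + 1 := (u l i).isLt
  have h2 : ((u l i).val : ℤ) ≤ q := by omega
  have h3 : (0 : ℤ) ≤ ((u l i).val : ℤ) := by positivity
  have h4 : (0 : ℤ) ≤ (k : ℤ) * q := by positivity
  unfold mat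
  rw [abs_le]
  split_ifs <;> constructor <;> nlinarith

lemma mat_Inj {n k : ℕ} (hk : k ≤ n) (q : ℕ) (u : Fin n → Fin k → Fin (q + 1)) :
    Inj (mat n k q u) := by
  intro c hc
  by_contra hne
  have hex : ∃ i, c i ≠ 0 := by
    by_contra h
    push Not at h
    exact hne (funext h)
  obtain ⟨i0, hi0⟩ := hex
  obtain ⟨i, -, hi⟩ := Finset.exists_max_image Finset.univ (fun i => |c i|) ⟨i0, Finset.mem_univ _⟩
  have hpos : 0 < |c i| := lt_of_lt_of_le (abs_pos.mpr hi0) (hi i0 (Finset.mem_univ _))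
  have h1 : (mat n k q u *ᵥ c) (Fin.castLE hk i) = 0 := by rw [hc]; rfl
  rw [Matrix.mulVec, dotProduct] at h1
  rw [← Finset.add_sum_erase _ _ (Finset.mem_univ i)] at h1
  have hd : mat n k q u (Fin.castLE hk i) i = k * q + 1 + (u (Fin.castLE hk i) i).val := by
    unfold mat
    rw [if_pos (by simp)]
  have hsum : |∑ x ∈ Finset.univ.erase i, mat n k q u (Fin.castLE hk i) x * c x| ≤
      k * (q * |c i|) := by
    refine (Finset.abs_sum_le_sum_abs _ _).trans ?_
    have hle : ∀ x ∈ Finset.univ.erase i, |mat n k q u (Fin.castLE hk i) x * c x| ≤ q * |c i| := by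
      intro x hx
      have hxi : x ≠ i := Finset.ne_of_mem_erase hx
      have hne' : (Fin.castLE hk i).val ≠ x.val := by
        simp only [Fin.val_castLE]
        exact fun h => hxi (Fin.ext h.symm)
      rw [abs_mul]
      have h5 : (u (Fin.castLE hk i) x).val < q + 1 := (u (Fin.castLE hk i) x).isLt
      have h6 : |mat n k q u (Fin.castLE hk i) x| ≤ q := by
        unfold mat
        rw [if_neg hne', abs_of_nonneg (by positivity)]
        omega
      exact mul_le_mul h6 (hi x (Finset.mem_univ _)) (abs_nonneg _) (by positivity)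
    refine (Finset.sum_le_card_nsmul _ _ _ hle).trans ?_
    rw [nsmul_eq_mul]
    have h7 : ((Finset.univ.erase i).card : ℤ) ≤ k := by
      have := Finset.card_le_univ (Finset.univ.erase i)
      rw [Fintype.card_fin] at this
      exact_mod_cast this
    exact mul_le_mul_of_nonneg_right h7 (by positivity)
  have h8 : mat n k q u (Fin.castLE hk i) i * c i =
      -∑ x ∈ Finset.univ.erase i, mat n k q u (Fin.castLE hk i) x * c x := by linarith
  have h9 : |mat n k q u (Fin.castLE hk i) i * c i| ≤ k * (q * |c i|) := by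
    rw [h8, abs_neg]
    exact hsum
  rw [abs_mul, hd, abs_of_nonneg (by positivity)] at h9
  have h10 : (0 : ℤ) ≤ ((u (Fin.castLE hk i) i).val : ℤ) * |c i| := by positivity
  nlinarith

/-- **LFM** -/
theorem t_LFM : S_LFM := by
  intro n k hk
  refine ⟨(1 / (4 * k + 4 : ℝ)) ^ (n * k), by positivity, fun lam hlam => ?_⟩
  have hfin : {V : Matrix (Fin n) (Fin k) ℤ | Inj V ∧ ∀ l i, |V l i| ≤ lam}.Finite := by
    have h0 : (Set.Icc (fun _ _ => -(lam : ℤ)) (fun _ _ => (lam : ℤ)) : Set (Fin n → Fin k → ℤ)).Finite :=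
      Set.finite_Icc _ _
    refine Set.Finite.subset h0 ?_
    intro V hV
    exact ⟨fun l i => (abs_le.mp (hV.2 l i)).1, fun l i => (abs_le.mp (hV.2 l i)).2⟩
  refine ⟨hfin, ?_⟩
  obtain ⟨q, hq⟩ : ∃ q : ℕ, q = lam / (4 * k + 4) := ⟨_, rfl⟩
  have hq1 : q * (4 * k + 4) ≤ lam := by rw [hq]; exact Nat.div_mul_le_self _ _
  have hq2 : lam < (q + 1) * (4 * k + 4) := by
    rw [hq]
    have := Nat.lt_div_mul_add (a := lam) (b := 4 * k + 4) (by omega)
    linarith
  have hmax : (k + 1) * q + 1 ≤ lam := by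
    rcases Nat.eq_zero_or_pos q with h | h
    · rw [h]; simpa using hlam
    · nlinarith
  have hsub : Set.range (mat n k q) ⊆
      {V : Matrix (Fin n) (Fin k) ℤ | Inj V ∧ ∀ l i, |V l i| ≤ lam} := by
    rintro V ⟨u, rfl⟩
    refine ⟨mat_Inj hk q u, fun l i => (mat_le n k q u l i).trans ?_⟩
    exact_mod_cast hmax
  have hcard : (Set.range (mat n k q)).ncard = (q + 1) ^ (n * k) := by
    rw [← Set.image_univ, Set.ncard_image_of_injective _ (mat_inj n k q), Set.ncard_univ,
      Nat.card_eq_fintype_card]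
    simp only [Fintype.card_pi, Fintype.card_fin, Finset.prod_const, Finset.card_univ]
    rw [← pow_mul, mul_comm]
  have hle := Set.ncard_le_ncard hsub hfin
  rw [hcard] at hle
  have h1 : (1 / (4 * k + 4 : ℝ)) * lam ≤ (q + 1 : ℝ) := by
    have h2 : (lam : ℝ) ≤ (q + 1) * (4 * k + 4) := by exact_mod_cast hq2.le
    rw [one_div, inv_mul_le_iff₀ (by positivity)]
    linarith
  calc (1 / (4 * k + 4 : ℝ)) ^ (n * k) * (lam : ℝ) ^ (n * k)
      = ((1 / (4 * k + 4 : ℝ)) * lam) ^ (n * k) := by rw [mul_pow]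
    _ ≤ (q + 1 : ℝ) ^ (n * k) := pow_le_pow_left₀ (by positivity) h1 _
    _ = (((q + 1) ^ (n * k) : ℕ) : ℝ) := by push_cast; rfl
    _ ≤ _ := by exact_mod_cast hle

end Pool.Agent.U427.WN
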